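import Pool.Agent.Q204.NNM.Main

/-!
# Universal recovery by unconstrained nuclear norm minimisation
-/

set_option autoImplicit false
open Filter Topology

namespace Pool.Agent.Results.MP_afaa81_pr.NuclearNormRecovery

/-- The nuclear norm: the sum over `j` of the square roots of the eigenvalues (with multiplicity)
of `Aᴴ * A`, that is, the sum of the singular values of the real matrix `A`. -/
noncomputable def nuclearNorm {m n : ℕ} (A : Matrix (Fin m) (Fin n) ℝ) : ℝ :=
  ∑ j, Real.sqrt ((Matrix.isHermitian_conjTranspose_mul_self A).eigenvalues j)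

/-- The normalised Frobenius norm. -/
noncomputable def fbar {m n : ℕ} (A : Matrix (Fin m) (Fin n) ℝ) : ℝ :=
  Real.sqrt ((∑ i, ∑ j, A i j ^ 2) / ((m : ℝ) * n))

/-- The sequence `P` of binary matrices admits stable recovery of low rank matrices. -/
def StableRecovery (m n : ℕ → ℕ) (P : ∀ k, Matrix (Fin (m k)) (Fin (n k)) ℝ) : Prop :=
  ∀ (K : ℕ) (L ε : ℝ), 0 < L → 0 < ε → ∃ δ : ℝ, 0 < δ ∧
    ∀ A B : ∀ k, Matrix (Fin (m k)) (Fin (n k)) ℝ,
      (∀ k, (A k).rank ≤ K ∧ (B k).rank ≤ K ∧ (∀ i j, |A k i j| ≤ L) ∧ ∀ i j, |B k i j| ≤ L) →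
      limsup (fun k => fbar ((A k - B k).hadamard (P k))) atTop ≤ δ →
      limsup (fun k => fbar (A k - B k)) atTop ≤ ε

/-- `B` minimises the nuclear norm among all matrices whose entrywise product with `P` is that
of `A` (no bound on the entries). -/
def IsNuclearMinimiser {m n : ℕ} (A P B : Matrix (Fin m) (Fin n) ℝ) : Prop :=
  B.hadamard P = A.hadamard P ∧
    ∀ B' : Matrix (Fin m) (Fin n) ℝ, B'.hadamard P = A.hadamard P →
      nuclearNorm B ≤ nuclearNorm B'

/-- **Unconstrained nuclear norm minimisation recovers bounded low rank matrices.** -/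
theorem result : ∀ m n : ℕ → ℕ, Tendsto m atTop atTop → Tendsto n atTop atTop →
    ∀ P : ∀ k, Matrix (Fin (m k)) (Fin (n k)) ℝ, (∀ k i j, P k i j = 0 ∨ P k i j = 1) →
    StableRecovery m n P →
    ∀ (A B : ∀ k, Matrix (Fin (m k)) (Fin (n k)) ℝ) (K : ℕ) (L : ℝ),
      (∀ k, (A k).rank ≤ K ∧ ∀ i j, |A k i j| ≤ L) →
      (∀ k, IsNuclearMinimiser (A k) (P k) (B k)) →
      Tendsto (fun k => fbar (B k - A k)) atTop (𝓝 0) := by
  intro m n hm hn P hP hS A B K L hA hB
  exact Pool.Agent.Q204.NNM.main m n hm hn P hP hS A B K L hA hB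

end Pool.Agent.Results.MP_afaa81_pr.NuclearNormRecovery
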